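import Pool.Agent.helper11.VQ.Spec3b

/-!
# Project VQ (MP_07c750_an), row PSC: phase space
-/

set_option autoImplicit false

open scoped MatrixGroups ContDiff Topology UpperHalfPlane ComplexConjugate ENNReal
open UpperHalfPlane MeasureTheory Filter Set

namespace Pool.Agent.VQ

open Pool.Agent.RS

theorem PSC_smul (Γ : Subgroup SL(2, ℝ)) (γ : Γ) (y : SL(2, ℝ) × ℝ) : γ • y = ((γ : SL(2, ℝ)) * y.1, y.2) := rfl

theorem PSC_proof (hINJ : RPQ.INJ_stmt) (hGLC : RS.GLC_stmt) (hGMG : RS.GMG_stmt) (hGLI : RS.GLI_stmt) (hDOB : QU.DOB_stmt) : PSC_stmt := by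
  intro Γ F R hΓ hF
  haveI : SigmaFinite mG := hGMG.2.2.1
  obtain ⟨hcnt, -, -, hfin, -⟩ := hDOB Γ F hΓ hF
  have hcI : Continuous (fun g : SL(2, ℝ) => (g • I : ℍ)) := by fun_prop
  have hmI : Measurable (fun g : SL(2, ℝ) => (g • I : ℍ)) := hcI.measurable
  have hmul : ∀ h : SL(2, ℝ), MeasurePreserving (fun g => h * g) mG mG := fun h =>
    ⟨(continuous_const.mul continuous_id).measurable, hGLI h⟩
  have hW : ((volume : Measure ℝ).restrict (Wi 2 R)) univ < ⊤ := by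
    rw [Measure.restrict_apply_univ]
    unfold Wi
    exact measure_Icc_lt_top
  have hact : ∀ γ : Γ, (fun y : SL(2, ℝ) × ℝ => γ • y) = Prod.map (fun g => (γ : SL(2, ℝ)) * g) id := fun γ => rfl
  refine ⟨hcnt, ?_, ?_, ?_, ?_, ?_, ?_, ?_, ?_, ?_, ?_, ?_, ?_⟩
  · unfold mW
    infer_instance
  · intro γ
    rw [hact]
    unfold mW
    exact (hmul γ).prod (MeasurePreserving.id _)
  · intro y
    obtain ⟨γ, h1, h2⟩ := hF.uniq (y.1 • I)
    refine ⟨γ, ⟨?_, mem_univ _⟩, fun δ hδ => h2 δ ?_⟩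
    · show ((γ : SL(2, ℝ)) * y.1) • I ∈ F
      rw [mul_smul]
      exact h1
    · have h3 : ((δ : SL(2, ℝ)) * y.1) • I ∈ F := hδ.1
      rw [mul_smul] at h3
      exact h3
  · exact (hGMG.1 F hF.meas).1.prod MeasurableSet.univ
  · unfold mW DW
    rw [Measure.prod_prod, (hGMG.1 F hF.meas).2]
    exact ENNReal.mul_lt_top hfin hW
  · exact (hmI.comp (measurable_fst.comp measurable_fst)).dist (hmI.comp (measurable_fst.comp measurable_snd))
  · intro x y
    exact dist_nonneg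
  · intro x y
    exact dist_comm _ _
  · intro x y z
    exact dist_triangle _ _ _
  · intro γ x y
    show dist (((γ : SL(2, ℝ)) * x.1) • I : ℍ) (((γ : SL(2, ℝ)) * y.1) • I) = dist (x.1 • I : ℍ) (y.1 • I)
    rw [mul_smul, mul_smul, dist_smul]
  · intro T
    have hK : IsCompact (Metric.closedBall (I : ℍ) T) := isCompact_closedBall _ _
    have hK2 : mG {g : SL(2, ℝ) | g • I ∈ Metric.closedBall (I : ℍ) T} < ⊤ := hGMG.2.1 _ (hGLC.2.2.1 _ hK)
    refine ⟨(mG {g : SL(2, ℝ) | g • I ∈ Metric.closedBall (I : ℍ) T} * ((volume : Measure ℝ).restrict (Wi 2 R)) univ).toReal, fun x => ?_⟩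
    rw [ENNReal.ofReal_toReal (ENNReal.mul_lt_top hK2 hW).ne]
    have h1 : {y : SL(2, ℝ) × ℝ | dW x y ≤ T} = {g : SL(2, ℝ) | dist (x.1 • I : ℍ) (g • I) ≤ T} ×ˢ (univ : Set ℝ) := by
      ext y
      simp only [mem_setOf_eq, mem_prod, mem_univ, and_true]
      rfl
    have hms : MeasurableSet {g : SL(2, ℝ) | dist (x.1 • I : ℍ) (g • I) ≤ T} := by
      refine measurableSet_le ?_ measurable_const
      exact measurable_const.dist hmI
    have h2 : mG {g : SL(2, ℝ) | dist (x.1 • I : ℍ) (g • I) ≤ T} = mG {g : SL(2, ℝ) | g • I ∈ Metric.closedBall (I : ℍ) T} := by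
      rw [← (hmul x.1).measure_preimage hms.nullMeasurableSet]
      congr 1
      ext g
      simp only [mem_preimage, mem_setOf_eq, Metric.mem_closedBall]
      rw [mul_smul, dist_smul, dist_comm]
    unfold mW
    rw [h1, Measure.prod_prod, h2]
  · intro T
    obtain ⟨n, hn⟩ := (hINJ Γ hΓ).2 T
    refine ⟨n, fun x y => ?_⟩
    have h1 : {γ : Γ | dW x (γ • y) ≤ T} = {γ : Γ | dist (x.1 • I : ℍ) ((γ : SL(2, ℝ)) • (y.1 • I)) ≤ T} := by
      ext γ
      simp only [mem_setOf_eq]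
      show dist (x.1 • I : ℍ) (((γ : SL(2, ℝ)) * y.1) • I) ≤ T ↔ _
      rw [mul_smul]
    rw [h1]
    exact hn _ _

end Pool.Agent.VQ
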