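import Pool.Agent.helper74.VQ.SpecB

/-!
# Project VQ (MP_07c750_an), row VOV: overlaps are localised
-/

set_option autoImplicit false

open scoped MatrixGroups ContDiff Topology UpperHalfPlane ComplexConjugate ENNReal
open UpperHalfPlane MeasureTheory Filter Set

namespace Pool.Agent.VQ

open Pool.Agent.RS

/-! ### Symbols -/

theorem VOV_mono {K : ℕ} {N N' m m' s s' : ℝ} {A : ℂ → ℂ} (h : SyB K N m s A) (hN : 0 ≤ N) (hNN : N ≤ N') (hm : 0 ≤ m')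
    (hmm : m ≤ m') (hs : s' ≤ s) : SyB K N' m' s' A := by
  intro v hv
  obtain ⟨h1, h2⟩ := h v (hv.trans hs)
  refine ⟨h1, fun k hk => (h2 k hk).trans ?_⟩
  exact mul_le_mul hmm (pow_le_pow_left₀ hN hNN k) (pow_nonneg hN k) hm

/-- affine functions -/
theorem VOV_aff (K : ℕ) {N m s : ℝ} (a b : ℂ) (hN : 0 ≤ N) (hm : 0 ≤ m) (h1 : ‖a‖ * s + ‖b‖ ≤ m) (h2 : ‖a‖ ≤ m * N) :
    SyB K N m s (fun v => a * v + b) := by
  intro v hv
  have hd : ∀ x : ℂ, HasFDerivAt (fun v : ℂ => a * v + b) (a • (ContinuousLinearMap.id ℝ ℂ)) x := by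
    intro x
    exact ((hasFDerivAt_id x).const_mul a).add_const b
  have hfd : fderiv ℝ (fun v : ℂ => a * v + b) = fun _ => a • (ContinuousLinearMap.id ℝ ℂ) := funext fun x => (hd x).fderiv
  refine ⟨by fun_prop, fun k _ => ?_⟩
  rcases k with _ | _ | k
  · rw [norm_iteratedFDeriv_zero, pow_zero, mul_one]
    refine (norm_add_le _ _).trans (le_trans ?_ h1)
    rw [norm_mul]
    have := mul_le_mul_of_nonneg_left hv (norm_nonneg a)
    linarith
  · rw [zero_add, norm_iteratedFDeriv_one, hfd, pow_one]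
    refine le_trans ?_ h2
    rw [norm_smul]
    exact mul_le_of_le_one_right (norm_nonneg a) ContinuousLinearMap.norm_id_le
  · rw [← norm_iteratedFDeriv_fderiv, hfd, iteratedFDeriv_succ_const]
    simp only [Pi.zero_apply, norm_zero]
    positivity

/-- bounds on compact sets -/
theorem VOV_cpt {F : ℂ → ℂ} {U Q : Set ℂ} (hU : IsOpen U) (hQ : IsCompact Q) (hQU : Q ⊆ U) (hF : ContDiffOn ℝ ∞ F U) (K : ℕ) :
    ∃ c : ℝ, 1 ≤ c ∧ ∀ v ∈ Q, ∀ k ≤ K, ‖iteratedFDeriv ℝ k F v‖ ≤ c := by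
  have h1 : ∀ k : ℕ, ∃ c : ℝ, ∀ v ∈ Q, ‖iteratedFDeriv ℝ k F v‖ ≤ c := by
    intro k
    have h2 : ContinuousOn (iteratedFDerivWithin ℝ k F U) U :=
      hF.continuousOn_iteratedFDerivWithin (by exact_mod_cast le_top) hU.uniqueDiffOn
    have h3 : ContinuousOn (iteratedFDeriv ℝ k F) U := h2.congr fun x hx => (iteratedFDerivWithin_of_isOpen k hU hx).symm
    exact hQ.exists_bound_of_continuousOn (h3.mono hQU)
  choose c hc using h1
  refine ⟨1 + ∑ k ∈ Finset.range (K + 1), |c k|, ?_, ?_⟩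
  · have : 0 ≤ ∑ k ∈ Finset.range (K + 1), |c k| := Finset.sum_nonneg fun _ _ => abs_nonneg _
    linarith
  · intro v hv k hk
    have h2 : |c k| ≤ ∑ k ∈ Finset.range (K + 1), |c k| :=
      Finset.single_le_sum (f := fun k => |c k|) (fun _ _ => abs_nonneg _) (Finset.mem_range.2 (Nat.lt_succ_of_le hk))
    have h3 := hc k v hv
    have h4 := le_abs_self (c k)
    linarith

/-- composition -/
theorem VOV_comp {g f : ℂ → ℂ} {s t : Set ℂ} (hs : IsOpen s) (ht : IsOpen t) (hg : ContDiffOn ℝ ∞ g t) (hf : ContDiffOn ℝ ∞ f s)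
    (hst : MapsTo f s t) {x : ℂ} (hx : x ∈ s) {n : ℕ} {C D : ℝ} (hC : ∀ i ≤ n, ‖iteratedFDeriv ℝ i g (f x)‖ ≤ C)
    (hD : ∀ i, 1 ≤ i → i ≤ n → ‖iteratedFDeriv ℝ i f x‖ ≤ D ^ i) :
    ‖iteratedFDeriv ℝ n (fun v => g (f v)) x‖ ≤ n.factorial * C * D ^ n := by
  have h1 := norm_iteratedFDerivWithin_comp_le hg hf (n := n) (by exact_mod_cast le_top) ht.uniqueDiffOn hs.uniqueDiffOn hst hx (C := C) (D := D)
    (fun i hi => by
      rw [iteratedFDerivWithin_of_isOpen i ht (hst hx)]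
      exact hC i hi)
    (fun i hi hi' => by
      rw [iteratedFDerivWithin_of_isOpen i hs hx]
      exact hD i hi hi')
  rw [iteratedFDerivWithin_of_isOpen n hs hx] at h1
  exact h1

theorem VOV_den {w v : ℂ} (hw : ‖w‖ ≤ 1) (hv : ‖v‖ < 2) : ‖conj w * v / 4‖ < 1 := by
  rw [norm_div, norm_mul, Complex.norm_conj]
  have h4 : ‖(4 : ℂ)‖ = 4 := by norm_num
  rw [h4]
  have h1 : ‖w‖ * ‖v‖ ≤ 1 * 2 := mul_le_mul hw hv.le (norm_nonneg _) zero_le_one
  linarith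

theorem VOV_den' {y : ℂ} (hy : ‖y‖ < 1) : 1 - y ≠ 0 := by
  intro h
  have h1 : y = 1 := (sub_eq_zero.1 h).symm
  rw [h1, norm_one] at hy
  exact lt_irrefl _ hy

/-- the denominator of the Moebius map -/
theorem VOV_u (K : ℕ) : ∃ c : ℝ, 1 ≤ c ∧ ∀ w : ℂ, ‖w‖ ≤ 1 → SyB K 1 c 1 (fun v => (1 - conj w * v / 4)⁻¹) := by
  have hU : ContDiffOn ℝ ∞ (fun y : ℂ => (1 - y)⁻¹) (Metric.ball 0 1) := by
    intro y hy
    refine ContDiffAt.contDiffWithinAt ?_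
    refine ContDiffAt.inv (by fun_prop) ?_
    exact VOV_den' (by simpa using hy)
  obtain ⟨c, hc1, hc⟩ := VOV_cpt (Q := Metric.closedBall 0 (1 / 2)) Metric.isOpen_ball (isCompact_closedBall 0 (1 / 2))
    (Metric.closedBall_subset_ball (by norm_num)) hU K
  refine ⟨K.factorial * c, ?_, ?_⟩
  · have : (1 : ℝ) ≤ K.factorial := by exact_mod_cast Nat.factorial_pos K
    nlinarith
  · intro w hw v hv
    have hf : ContDiffOn ℝ ∞ (fun v : ℂ => conj w * v / 4) (Metric.ball 0 2) := by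
      refine ContDiff.contDiffOn ?_
      fun_prop
    have hmaps : MapsTo (fun v : ℂ => conj w * v / 4) (Metric.ball 0 2) (Metric.ball 0 1) := by
      intro x hx
      rw [mem_ball_zero_iff] at hx ⊢
      exact VOV_den hw hx
    have hv2 : v ∈ Metric.ball (0 : ℂ) 2 := by
      rw [mem_ball_zero_iff]
      linarith
    have haff := VOV_aff K (N := 1) (m := 1) (s := 1) (conj w / 4) 0 zero_le_one zero_le_one
      (by
        rw [norm_div, Complex.norm_conj, norm_zero]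
        have h4 : ‖(4 : ℂ)‖ = 4 := by norm_num
        rw [h4]
        linarith)
      (by
        rw [norm_div, Complex.norm_conj]
        have h4 : ‖(4 : ℂ)‖ = 4 := by norm_num
        rw [h4]
        linarith) v hv
    have hfe : (fun v : ℂ => conj w / 4 * v + 0) = fun v : ℂ => conj w * v / 4 := by
      funext v
      ring
    rw [hfe] at haff
    refine ⟨?_, fun k hk => ?_⟩
    · refine ContDiffAt.inv (by fun_prop) ?_
      exact VOV_den' (VOV_den hw (by linarith))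
    · have h1 := VOV_comp (n := k) Metric.isOpen_ball Metric.isOpen_ball hU hf hmaps hv2 (C := c) (D := 1)
        (fun i hi => hc _ (by
          rw [mem_closedBall_zero_iff, norm_div, norm_mul, Complex.norm_conj]
          have h4 : ‖(4 : ℂ)‖ = 4 := by norm_num
          rw [h4]
          have h5 : ‖w‖ * ‖v‖ ≤ 1 * 1 := mul_le_mul hw hv (norm_nonneg _) zero_le_one
          linarith) i (hi.trans hk))
        (fun i _ hi => by
          have := haff.2 i (hi.trans hk)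
          rwa [one_mul] at this)
      refine h1.trans ?_
      have h2 : (k.factorial : ℝ) ≤ K.factorial := by exact_mod_cast Nat.factorial_le hk
      rw [one_pow, mul_one, mul_one]
      exact mul_le_mul_of_nonneg_right h2 (by linarith)

/-- the weight -/
theorem VOV_jd (K : ℕ) : ∃ c : ℝ, 1 ≤ c ∧ SyB K 1 c 1 (fun v => ((jd v : ℝ) : ℂ)) := by
  have hU : ContDiffOn ℝ ∞ (fun v : ℂ => ((jd v : ℝ) : ℂ)) (Metric.ball 0 2) := by
    intro y hy
    rw [mem_ball_zero_iff] at hy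
    refine ContDiffAt.contDiffWithinAt ?_
    unfold jd
    refine Complex.ofRealCLM.contDiff.contDiffAt.comp y ?_
    refine ContDiffAt.inv ?_ ?_
    · refine ContDiffAt.pow ?_ 2
      refine contDiffAt_const.sub ?_
      exact ((contDiff_norm_sq ℝ).contDiffAt).div_const 4
    · have h1 : ‖y‖ ^ 2 < 4 := by nlinarith [norm_nonneg y]
      have h2 : 0 < 1 - ‖y‖ ^ 2 / 4 := by linarith
      positivity
  obtain ⟨c, hc1, hc⟩ := VOV_cpt (Q := Metric.closedBall 0 1) Metric.isOpen_ball (isCompact_closedBall 0 1)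
    (Metric.closedBall_subset_ball (by norm_num)) hU K
  refine ⟨c, hc1, fun v hv => ⟨?_, fun k hk => ?_⟩⟩
  · refine hU.contDiffAt (Metric.isOpen_ball.mem_nhds ?_)
    rw [mem_ball_zero_iff]
    linarith
  · rw [one_pow, mul_one]
    exact hc v (by rw [mem_closedBall_zero_iff]; exact hv) k hk

/-- the Moebius map -/
theorem VOV_tau (hVSY : VSY_stmt) (K : ℕ) : ∃ D : ℝ, 1 ≤ D ∧ ∀ e w : ℂ, ‖e‖ = 1 → ‖w‖ ≤ 1 →
    SyB K 1 D 1 (fun v => (e * v + -(e * w)) * (1 - conj w * v / 4)⁻¹) := by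
  obtain ⟨C, hC1, hC, -, -⟩ := hVSY K
  obtain ⟨c, hc1, hc⟩ := VOV_u K
  refine ⟨C * 2 * c, by nlinarith, fun e w he hw => ?_⟩
  refine (hC 1 2 c 1 _ _ le_rfl (by norm_num) (by linarith) ?_ (hc w hw)).1
  refine VOV_aff K e (-(e * w)) zero_le_one (by norm_num) ?_ ?_
  · rw [norm_neg, norm_mul, he]
    linarith
  · rw [he]
    norm_num

/-- composition of a symbol with the Moebius map -/
theorem VOV_A2 {K : ℕ} {D : ℝ} (hD : 1 ≤ D) {e w : ℂ} (hτ : SyB K 1 D 1 (fun v => (e * v + -(e * w)) * (1 - conj w * v / 4)⁻¹)) (hw : ‖w‖ ≤ 1)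
    {m N : ℝ} (hm : 0 ≤ m) (hN : 1 ≤ N) {A : ℂ → ℂ} (hA : ContDiff ℝ ∞ A) (hAb : ∀ k ≤ K, ∀ v, ‖iteratedFDeriv ℝ k A v‖ ≤ m * N ^ k) {s : ℝ}
    (hs : s ≤ 1) : SyB K (D * N) (K.factorial * m) s (fun v => conj (A ((e * v + -(e * w)) * (1 - conj w * v / 4)⁻¹))) := by
  have hf : ContDiffOn ℝ ∞ (fun v : ℂ => (e * v + -(e * w)) * (1 - conj w * v / 4)⁻¹) (Metric.ball 0 2) := by
    intro v hv
    rw [mem_ball_zero_iff] at hv
    refine ContDiffAt.contDiffWithinAt ?_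
    refine ContDiffAt.mul (by fun_prop) (ContDiffAt.inv (by fun_prop) ?_)
    exact VOV_den' (VOV_den hw hv)
  intro v hv
  have hv1 : ‖v‖ ≤ 1 := hv.trans hs
  have hv2 : v ∈ Metric.ball (0 : ℂ) 2 := by
    rw [mem_ball_zero_iff]
    linarith
  have hcd : ContDiffAt ℝ ∞ (fun v : ℂ => A ((e * v + -(e * w)) * (1 - conj w * v / 4)⁻¹)) v :=
    hA.contDiffAt.comp v (hf.contDiffAt (Metric.isOpen_ball.mem_nhds hv2))
  refine ⟨Complex.conjLIE.contDiff.contDiffAt.comp v hcd, fun k hk => ?_⟩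
  have h0 : ‖iteratedFDeriv ℝ k (fun v : ℂ => conj (A ((e * v + -(e * w)) * (1 - conj w * v / 4)⁻¹))) v‖ =
      ‖iteratedFDeriv ℝ k (fun v : ℂ => A ((e * v + -(e * w)) * (1 - conj w * v / 4)⁻¹)) v‖ :=
    Complex.conjLIE.norm_iteratedFDeriv_comp_left _ v k
  rw [h0]
  have h1 := VOV_comp (n := k) (g := A) (t := univ) Metric.isOpen_ball isOpen_univ hA.contDiffOn hf (mapsTo_univ _ _) hv2 (C := m * N ^ k) (D := D)
    (fun i hi => (hAb i (hi.trans hk) _).trans (mul_le_mul_of_nonneg_left (pow_le_pow_right₀ hN hi) hm))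
    (fun i hi hi' => by
      have h2 := (hτ v hv1).2 i (hi'.trans hk)
      rw [one_pow, mul_one] at h2
      refine h2.trans ?_
      calc D = D ^ 1 := (pow_one D).symm
        _ ≤ D ^ i := pow_le_pow_right₀ hD hi)
  refine h1.trans ?_
  have h2 : (k.factorial : ℝ) ≤ K.factorial := by exact_mod_cast Nat.factorial_le hk
  have h3 : 0 ≤ m * (D * N) ^ k := by positivity
  calc (k.factorial : ℝ) * (m * N ^ k) * D ^ k = k.factorial * (m * (D * N) ^ k) := by rw [mul_pow]; ring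
    _ ≤ K.factorial * (m * (D * N) ^ k) := mul_le_mul_of_nonneg_right h2 h3
    _ = K.factorial * m * (D * N) ^ k := by ring

/-- the remainder of the Moebius map -/
noncomputable def VOV_E (e w v : ℂ) : ℂ := (e * v + -(e * w)) * (conj w / 4 * v + 0) * (1 - conj w * v / 4)⁻¹

/-- the amplitude -/
noncomputable def VOV_B (A1 A2 : ℂ → ℂ) (e w : ℂ) (a : ℝ) (v : ℂ) : ℂ :=
  A1 v * (((jd v : ℝ) : ℂ) * conj (A2 ((e * v + -(e * w)) * (1 - conj w * v / 4)⁻¹)) * Complex.exp (-(Complex.I * ((a * (VOV_E e w v).re : ℝ) : ℂ))))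

theorem VOV_sym (hVSY : VSY_stmt) (K : ℕ) : ∃ C : ℝ, 1 ≤ C ∧ ∀ (q N0 a m1 m2 : ℝ) (A1 A2 : ℂ → ℂ) (e w : ℂ), 0 < q → q ≤ 1 / 8 → 1 ≤ N0 → 1 ≤ q * N0 →
    0 ≤ a → C * a * q ^ 3 ≤ 1 → 0 ≤ m1 → 0 ≤ m2 → ‖e‖ = 1 → ‖w‖ ≤ 4 * q →
    ContDiff ℝ ∞ A1 → (∀ v, A1 v ≠ 0 → ‖v‖ ≤ q) → (∀ k ≤ K, ∀ v, ‖iteratedFDeriv ℝ k A1 v‖ ≤ m1 * N0 ^ k) →
    ContDiff ℝ ∞ A2 → (∀ k ≤ K, ∀ v, ‖iteratedFDeriv ℝ k A2 v‖ ≤ m2 * N0 ^ k) →
    ContDiff ℝ ∞ (VOV_B A1 A2 e w a) ∧ ∀ v, ‖iteratedFDeriv ℝ K (VOV_B A1 A2 e w a) v‖ ≤ C * m1 * m2 * (C * N0) ^ K := by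
  obtain ⟨D, hD1, hD⟩ := VOV_tau hVSY K
  obtain ⟨cu, hcu1, hcu⟩ := VOV_u K
  obtain ⟨cj, hcj1, hcj⟩ := VOV_jd K
  obtain ⟨C0, hC1, hCm, hCe, hCx⟩ := hVSY K
  have hf1 : (1 : ℝ) ≤ K.factorial := by exact_mod_cast Nat.factorial_pos K
  obtain ⟨C, hC⟩ : ∃ C : ℝ, C = 12 * C0 ^ 2 * cu + D + C0 ^ 4 * cj * K.factorial := ⟨_, rfl⟩
  have p1 : 0 ≤ 12 * C0 ^ 2 * cu := by positivity
  have p2 : 0 ≤ C0 ^ 4 * cj * K.factorial := by positivity
  have q1 : 12 * C0 ^ 2 * cu ≤ C := by rw [hC]; linarith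
  have q2 : D ≤ C := by rw [hC]; linarith
  have q3 : C0 ^ 4 * cj * K.factorial ≤ C := by rw [hC]; linarith
  refine ⟨C, by linarith, ?_⟩
  intro q N0 a m1 m2 A1 A2 e w hq hq8 hN0 hqN ha haq hm1 hm2 he hw hA1 hA1s hA1b hA2 hA2b
  have hw1 : ‖w‖ ≤ 1 := by linarith
  have hN0' : 0 ≤ N0 := by linarith
  have hDN : N0 ≤ D * N0 := by nlinarith
  have hDN1 : 1 ≤ D * N0 := by linarith
  -- the exponent
  have hE : SyB K N0 (C0 * (C0 * (6 * q) * (2 * q ^ 2)) * cu) (2 * q) (VOV_E e w) := by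
    have e1 : SyB K N0 (6 * q) (2 * q) (fun v => e * v + -(e * w)) := by
      refine VOV_aff K e (-(e * w)) hN0' (by positivity) ?_ ?_
      · rw [norm_neg, norm_mul, he]
        linarith
      · rw [he]
        nlinarith
    have e2 : SyB K N0 (2 * q ^ 2) (2 * q) (fun v => conj w / 4 * v + 0) := by
      have h4 : ‖conj w / 4‖ ≤ q := by
        rw [norm_div, Complex.norm_conj]
        have h4 : ‖(4 : ℂ)‖ = 4 := by norm_num
        rw [h4]
        linarith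
      refine VOV_aff K (conj w / 4) 0 hN0' (by positivity) ?_ ?_
      · rw [norm_zero, add_zero]
        calc ‖conj w / 4‖ * (2 * q) ≤ q * (2 * q) := mul_le_mul_of_nonneg_right h4 (by positivity)
          _ = 2 * q ^ 2 := by ring
      · refine h4.trans ?_
        have : 2 * q ^ 2 * N0 = 2 * q * (q * N0) := by ring
        rw [this]
        nlinarith
    have e3 : SyB K N0 cu (2 * q) (fun v => (1 - conj w * v / 4)⁻¹) :=
      VOV_mono (hcu w hw1) zero_le_one hN0 (by linarith) le_rfl (by linarith)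
    have e12 := (hCm N0 (6 * q) (2 * q ^ 2) (2 * q) _ _ hN0 (by positivity) (by positivity) e1 e2).1
    exact (hCm N0 (C0 * (6 * q) * (2 * q ^ 2)) cu (2 * q) _ _ hN0 (by positivity) (by linarith) e12 e3).1
  obtain ⟨L, hL⟩ : ∃ L : ℂ →L[ℝ] ℂ, L = (-(Complex.I * (a : ℂ))) • (Complex.ofRealCLM.comp Complex.reCLM) := ⟨_, rfl⟩
  have hLz : ∀ z : ℂ, L z = -(Complex.I * ((a * z.re : ℝ) : ℂ)) := by
    intro z
    rw [hL]
    simp only [ContinuousLinearMap.smul_apply, ContinuousLinearMap.comp_apply, Complex.reCLM_apply, Complex.ofRealCLM_apply, smul_eq_mul]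
    push_cast
    ring
  have hLn : ‖L‖ ≤ a := by
    refine ContinuousLinearMap.opNorm_le_bound L ha fun z => ?_
    rw [hLz, norm_neg, norm_mul, Complex.norm_I, one_mul, Complex.norm_real, Real.norm_eq_abs, abs_mul, abs_of_nonneg ha]
    exact mul_le_mul_of_nonneg_left (Complex.abs_re_le_norm z) ha
  have hψ : ∀ v : ℂ, ‖v‖ ≤ 2 * q → ContDiffAt ℝ ∞ (fun v => -(Complex.I * ((a * (VOV_E e w v).re : ℝ) : ℂ))) v ∧
      (-(Complex.I * ((a * (VOV_E e w v).re : ℝ) : ℂ))).re ≤ 0 ∧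
      ∀ k, 1 ≤ k → k ≤ K → ‖iteratedFDeriv ℝ k (fun v => -(Complex.I * ((a * (VOV_E e w v).re : ℝ) : ℂ))) v‖ ≤ (D * N0) ^ k := by
    intro v hv
    have hfe : (fun v => -(Complex.I * ((a * (VOV_E e w v).re : ℝ) : ℂ))) = L ∘ (VOV_E e w) := by
      funext v
      rw [Function.comp_apply, hLz]
    obtain ⟨h1, h2⟩ := hE v hv
    refine ⟨?_, ?_, fun k _ hk => ?_⟩
    · rw [hfe]
      exact L.contDiff.contDiffAt.comp v h1
    · rw [Complex.neg_re, Complex.mul_re, Complex.I_re, Complex.I_im, Complex.ofReal_re, Complex.ofReal_im]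
      norm_num
    · rw [hfe]
      refine (L.norm_iteratedFDeriv_comp_left h1 (by exact_mod_cast le_top)).trans ?_
      have h3 : ‖L‖ * ‖iteratedFDeriv ℝ k (VOV_E e w) v‖ ≤ a * (C0 * (C0 * (6 * q) * (2 * q ^ 2)) * cu * N0 ^ k) :=
        mul_le_mul hLn (h2 k hk) (norm_nonneg _) ha
      refine h3.trans ?_
      have h4 : a * (C0 * (C0 * (6 * q) * (2 * q ^ 2)) * cu * N0 ^ k) = (12 * C0 ^ 2 * cu) * (a * q ^ 3) * N0 ^ k := by ring
      have h5 : (12 * C0 ^ 2 * cu) * (a * q ^ 3) ≤ 1 := by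
        have : (12 * C0 ^ 2 * cu) * (a * q ^ 3) ≤ C * (a * q ^ 3) := mul_le_mul_of_nonneg_right q1 (by positivity)
        linarith [mul_assoc C a (q ^ 3)]
      rw [h4]
      calc (12 * C0 ^ 2 * cu) * (a * q ^ 3) * N0 ^ k ≤ 1 * N0 ^ k := mul_le_mul_of_nonneg_right h5 (by positivity)
        _ = N0 ^ k := one_mul _
        _ ≤ (D * N0) ^ k := pow_le_pow_left₀ hN0' hDN k
  have hexp := hCe (D * N0) (2 * q) _ hDN1 hψ
  have hj : SyB K (D * N0) cj (2 * q) (fun v => ((jd v : ℝ) : ℂ)) := VOV_mono hcj zero_le_one hDN1 (by linarith) le_rfl (by linarith)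
  have hA2' := VOV_A2 hD1 (hD e w he hw1) hw1 hm2 hN0 hA2 hA2b (s := 2 * q) (by linarith)
  have hP1 := (hCm (D * N0) cj (K.factorial * m2) (2 * q) _ _ hDN1 (by linarith) (by positivity) hj hA2').1
  have hP2 := (hCm (D * N0) (C0 * cj * (K.factorial * m2)) C0 (2 * q) _ _ hDN1 (by positivity) (by linarith) hP1 hexp).1
  obtain ⟨hB1, hB2⟩ := hCx (D * N0) m1 (C0 * (C0 * cj * (K.factorial * m2)) * C0) (2 * q) q _ A1 hDN1 hm1 (by positivity) (by linarith) hA1 hA1s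
    (fun k hk v => (hA1b k hk v).trans (mul_le_mul_of_nonneg_left (pow_le_pow_left₀ hN0' hDN k) hm1)) hP2
  refine ⟨hB1, fun v => (hB2 K le_rfl v).trans ?_⟩
  have h6 : (D * N0) ^ K ≤ (C * N0) ^ K := pow_le_pow_left₀ (by positivity) (mul_le_mul_of_nonneg_right q2 hN0') K
  have h7 : C0 * m1 * (C0 * (C0 * cj * (K.factorial * m2)) * C0) ≤ C * m1 * m2 := by
    have : C0 * m1 * (C0 * (C0 * cj * (K.factorial * m2)) * C0) = (C0 ^ 4 * cj * K.factorial) * (m1 * m2) := by ring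
    rw [this, mul_assoc C m1 m2]
    exact mul_le_mul_of_nonneg_right q3 (by positivity)
  exact mul_le_mul h7 h6 (by positivity) (by
    have : 0 ≤ C := by linarith
    positivity)

/-! ### The integral in the disc coordinate -/

theorem VOV_cov (hVCD : VCD_stmt) (hVCM : VCM_stmt) (f1 f2 : ℂ → ℂ) (g1 g2 : SL(2, ℝ)) :
    ∫ z : ℍ, f1 (cd (g1⁻¹ • z)) * conj (f2 (cd (g2⁻¹ • z))) =
      ∫ v in Metric.ball (0 : ℂ) 2, jd v • (f1 v * conj (f2 (cd ((g1⁻¹ * g2)⁻¹ • cdi v)))) := by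
  rw [hVCM.1 ℂ g1 (fun z => f1 (cd (g1⁻¹ • z)) * conj (f2 (cd (g2⁻¹ • z))))]
  refine setIntegral_congr_fun Metric.isOpen_ball.measurableSet fun v hv => ?_
  rw [mem_ball_zero_iff] at hv
  show jd v • (f1 (cd (g1⁻¹ • g1 • cdi v)) * conj (f2 (cd (g2⁻¹ • g1 • cdi v)))) = _
  rw [inv_smul_smul, (hVCD.2.1 v hv).1, mul_inv_rev, inv_inv, mul_smul]

theorem VOV_jd2 {v : ℂ} (hv : ‖v‖ ≤ 1 / 8) : 0 ≤ jd v ∧ jd v ≤ 2 := by
  have h1 : ‖v‖ ^ 2 ≤ (1 / 8) ^ 2 := pow_le_pow_left₀ (norm_nonneg _) hv 2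
  have h2 : 255 / 256 ≤ 1 - ‖v‖ ^ 2 / 4 := by nlinarith
  have h3 : (1 / 2 : ℝ) ≤ (1 - ‖v‖ ^ 2 / 4) ^ 2 := by nlinarith
  unfold jd
  refine ⟨by positivity, ?_⟩
  calc ((1 - ‖v‖ ^ 2 / 4) ^ 2)⁻¹ ≤ (1 / 2 : ℝ)⁻¹ := inv_anti₀ (by norm_num) h3
    _ = 2 := by norm_num

theorem VOV_bd {q m1 m2 : ℝ} (hq : 0 < q) (hq8 : q ≤ 1 / 8) (hm1 : 0 ≤ m1) (hm2 : 0 ≤ m2) (f1 F : ℂ → ℂ) (h1 : ∀ v, ‖f1 v‖ ≤ m1)
    (h2 : ∀ v, ‖F v‖ ≤ m2) (h3 : ∀ v, f1 v ≠ 0 → ‖v‖ ≤ q) :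
    ‖∫ v in Metric.ball (0 : ℂ) 2, jd v • (f1 v * F v)‖ ≤ 8 * m1 * m2 * q ^ 2 := by
  have e1 : ∫ v in Metric.ball (0 : ℂ) 2, jd v • (f1 v * F v) = ∫ v in Metric.closedBall (0 : ℂ) q, jd v • (f1 v * F v) := by
    refine setIntegral_eq_of_subset_of_forall_diff_eq_zero Metric.isOpen_ball.measurableSet (Metric.closedBall_subset_ball (by linarith)) fun v hv => ?_
    have h4 : f1 v = 0 := by
      by_contra h
      exact hv.2 (mem_closedBall_zero_iff.2 (h3 v h))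
    rw [h4, zero_mul, smul_zero]
  rw [e1]
  have hfin : volume (Metric.closedBall (0 : ℂ) q) < ⊤ := measure_closedBall_lt_top
  refine (norm_setIntegral_le_of_norm_le_const hfin (C := 2 * (m1 * m2)) fun v hv => ?_).trans ?_
  · rw [mem_closedBall_zero_iff] at hv
    obtain ⟨j1, j2⟩ := VOV_jd2 (hv.trans hq8)
    rw [norm_smul, norm_mul, Real.norm_eq_abs, abs_of_nonneg j1]
    exact mul_le_mul j2 (mul_le_mul (h1 v) (h2 v) (norm_nonneg _) hm1) (by positivity) (by norm_num)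
  · have h5 : volume.real (Metric.closedBall (0 : ℂ) q) = q ^ 2 * Real.pi := by
      rw [Measure.real, Complex.volume_closedBall, ENNReal.toReal_mul, ENNReal.toReal_pow, ENNReal.toReal_ofReal hq.le]
      rfl
    rw [h5]
    have h6 : Real.pi ≤ 4 := Real.pi_le_four
    have h7 : 0 ≤ m1 * m2 * q ^ 2 := by positivity
    nlinarith

theorem VOV_sup (hVCD : VCD_stmt) {q : ℝ} (hq8 : q ≤ 1 / 8) (g1 g2 : SL(2, ℝ)) (z : ℍ) (h1 : ‖cd (g1⁻¹ • z)‖ ≤ q) (h2 : ‖cd (g2⁻¹ • z)‖ ≤ q) :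
    dist (g1 • I : ℍ) (g2 • I) ≤ 4 * q ∧ dist ((g1⁻¹ * g2) • I : ℍ) I ≤ 4 * q ∧ ‖cd ((g1⁻¹ * g2) • I)‖ ≤ 4 * q := by
  obtain ⟨-, -, -, -, -, hd1, hd2, -⟩ := hVCD
  have e : ∀ g : SL(2, ℝ), ‖cd (g⁻¹ • z)‖ ≤ q → dist z (g • I) ≤ 2 * q := by
    intro g hg
    have h3 := hd2 (g⁻¹ • z) (by linarith)
    have h4 : dist z (g • I) = dist (g⁻¹ • z) I := by
      rw [← dist_smul g (g⁻¹ • z) I, smul_inv_smul]
    rw [h4]
    linarith
  have k1 := e g1 h1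
  have k2 := e g2 h2
  have k3 : dist (g1 • I : ℍ) (g2 • I) ≤ 4 * q := by
    have := dist_triangle_left (g1 • I : ℍ) (g2 • I) z
    linarith
  have k4 : dist ((g1⁻¹ * g2) • I : ℍ) I ≤ 4 * q := by
    rw [← dist_smul g1 ((g1⁻¹ * g2) • I : ℍ) I, mul_smul, smul_inv_smul, dist_comm]
    exact k3
  exact ⟨k3, k4, (hd1 _).trans k4⟩

theorem VOV_Bo {h : SL(2, ℝ)} {r r' : ℝ} (hh : h ∈ Bo r) (hr : r ≤ r') : h ∈ Bo r' := by
  rcases hh with h1 | h1
  · exact Or.inl fun i j => (h1 i j).trans_le hr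
  · exact Or.inr fun i j => (h1 i j).trans_le hr

/-- the phase -/
theorem VOV_ph {R ρ1 ρ2 : ℝ} {A1 A2 f1 f2 : ℂ → ℂ} (h1 : ∀ v, f1 v = Complex.exp (((R * ρ1 * v.re : ℝ) : ℂ) * Complex.I) * A1 v)
    (h2 : ∀ v, f2 v = Complex.exp (((R * ρ2 * v.re : ℝ) : ℂ) * Complex.I) * A2 v) {e w ξ v y : ℂ} (hξ : ξ = (ρ1 : ℂ) - (ρ2 : ℂ) * conj e)
    (hw : ‖w‖ ≤ 1) (hv : ‖v‖ < 2) (hy : y = e * (v - w) / (1 - conj w * v / 4)) :
    jd v • (f1 v * conj (f2 y)) = Complex.exp (((R * ρ2 * (e * w).re : ℝ) : ℂ) * Complex.I) *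
      (VOV_B A1 A2 e w (R * ρ2) v * Complex.exp (((R * (ξ.re * v.re + ξ.im * v.im) : ℝ) : ℂ) * Complex.I)) := by
  have hden : 1 - conj w * v / 4 ≠ 0 := VOV_den' (VOV_den hw hv)
  have hy1 : (e * v + -(e * w)) * (1 - conj w * v / 4)⁻¹ = y := by
    rw [hy, div_eq_mul_inv]
    ring
  have hy2 : y = (e * v - e * w) + VOV_E e w v := by
    have hu : (1 - conj w * v / 4) * (1 - conj w * v / 4)⁻¹ = 1 := mul_inv_cancel₀ hden
    rw [hy, div_eq_mul_inv]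
    unfold VOV_E
    linear_combination (e * v - e * w) * hu
  have hre : y.re = (e.re * v.re - e.im * v.im) - (e * w).re + (VOV_E e w v).re := by
    rw [hy2, Complex.add_re, Complex.sub_re, Complex.mul_re]
  have hx1 : ξ.re = ρ1 - ρ2 * e.re := by
    rw [hξ]
    simp
  have hx2 : ξ.im = ρ2 * e.im := by
    rw [hξ]
    simp
  have hc : conj (f2 y) = Complex.exp (-(((R * ρ2 * y.re : ℝ) : ℂ) * Complex.I)) * conj (A2 y) := by
    rw [h2, map_mul, ← Complex.exp_conj, map_mul, Complex.conj_ofReal, Complex.conj_I, mul_neg]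
  unfold VOV_B
  rw [hy1, h1, hc, Complex.real_smul]
  have key : Complex.exp (((R * ρ1 * v.re : ℝ) : ℂ) * Complex.I) * Complex.exp (-(((R * ρ2 * y.re : ℝ) : ℂ) * Complex.I)) =
      Complex.exp (((R * ρ2 * (e * w).re : ℝ) : ℂ) * Complex.I) * (Complex.exp (-(Complex.I * ((R * ρ2 * (VOV_E e w v).re : ℝ) : ℂ))) *
        Complex.exp (((R * (ξ.re * v.re + ξ.im * v.im) : ℝ) : ℂ) * Complex.I)) := by
    rw [← Complex.exp_add, ← Complex.exp_add, ← Complex.exp_add]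
    congr 1
    rw [hre, hx1, hx2]
    push_cast
    ring
  calc ((jd v : ℝ) : ℂ) * (Complex.exp (((R * ρ1 * v.re : ℝ) : ℂ) * Complex.I) * A1 v * (Complex.exp (-(((R * ρ2 * y.re : ℝ) : ℂ) * Complex.I)) * conj (A2 y)))
      = (Complex.exp (((R * ρ1 * v.re : ℝ) : ℂ) * Complex.I) * Complex.exp (-(((R * ρ2 * y.re : ℝ) : ℂ) * Complex.I))) *
        (((jd v : ℝ) : ℂ) * A1 v * conj (A2 y)) := by ring
    _ = _ := by
      rw [key]
      ring

theorem VOV_proof (hVTA : VTA_stmt) (hVNS : VNS_stmt) (hVSY : VSY_stmt) (hVCM : VCM_stmt) (hVCD : VCD_stmt) : VOV_stmt := by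
  obtain ⟨CT, hCT1, hCT⟩ := hVTA
  refine ⟨100, by norm_num, fun M η hη hCη => ?_⟩
  have hη4 : η ≤ 1 / 100 := by linarith
  obtain ⟨K, hK⟩ : ∃ K : ℕ, M ≤ η * K := by
    obtain ⟨K, hK⟩ := exists_nat_ge (M / η)
    refine ⟨K, ?_⟩
    rw [div_le_iff₀ hη] at hK
    linarith
  obtain ⟨C1, hC1, hsym⟩ := VOV_sym hVSY K
  obtain ⟨Q, hQ⟩ : ∃ Q : ℝ, Q = 8 + 4 * C1 + 4 * CT := ⟨_, rfl⟩
  have hQ8 : 16 ≤ Q := by linarith
  have hQ0 : 0 < Q := by linarith
  refine ⟨K, Q ^ (1 / η), Real.one_le_rpow (by linarith) (by positivity), ?_⟩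
  intro R ρ1 ρ2 m1 m2 f1 f2 g1 g2 hR hρ1 hρ2 hm1 hm2 hf1 hf2
  obtain ⟨A1, hA1, hA1s, hA1b, hA1f⟩ := hf1
  obtain ⟨A2, hA2, hA2s, hA2b, hA2f⟩ := hf2
  -- the powers of `R`
  have hR0 : 0 < R := lt_of_lt_of_le (Real.rpow_pos_of_pos hQ0 _) hR
  have hX : Q ≤ R ^ η := by
    calc Q = (Q ^ (1 / η)) ^ η := by rw [← Real.rpow_mul hQ0.le, one_div_mul_cancel hη.ne', Real.rpow_one]
      _ ≤ R ^ η := Real.rpow_le_rpow (Real.rpow_nonneg hQ0.le _) hR hη.le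
  have hR1 : 1 < R := by
    by_contra h
    push Not at h
    have := Real.rpow_le_one hR0.le h hη.le
    linarith
  have hmono : ∀ {x y : ℝ}, x ≤ y → R ^ x ≤ R ^ y := fun h => Real.rpow_le_rpow_of_exponent_le hR1.le h
  obtain ⟨q, hq⟩ : ∃ q : ℝ, q = R ^ (-(1 / 2) + η) := ⟨_, rfl⟩
  obtain ⟨N0, hN0⟩ : ∃ N0 : ℝ, N0 = R ^ (1 / 2 + η) := ⟨_, rfl⟩
  obtain ⟨t, ht⟩ : ∃ t : ℝ, t = R ^ (-(1 / 2) + 3 * η) := ⟨_, rfl⟩
  rw [← hN0] at hA1b hA2b
  rw [← hq] at hA1s hA2s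
  have hq0 : 0 < q := by rw [hq]; exact Real.rpow_pos_of_pos hR0 _
  have ht0 : 0 < t := by rw [ht]; exact Real.rpow_pos_of_pos hR0 _
  have hXi : R ^ (-η) ≤ 1 / Q := by
    rw [Real.rpow_neg hR0.le, one_div]
    exact inv_anti₀ hQ0 hX
  have hQi : 1 / Q ≤ 1 / 16 := one_div_le_one_div_of_le (by norm_num) hQ8
  have hqX : q ≤ R ^ (-η) := by rw [hq]; exact hmono (by linarith)
  have htX : t ≤ R ^ (-η) := by rw [ht]; exact hmono (by linarith)
  have hqQ : q * Q ≤ 1 := by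
    have := hqX.trans hXi
    rwa [le_div_iff₀ hQ0] at this
  have htQ : t * Q ≤ 1 := by
    have := htX.trans hXi
    rwa [le_div_iff₀ hQ0] at this
  have hq8 : q ≤ 1 / 8 := by linarith
  have ht8 : t ≤ 1 / 16 := by linarith
  have hqt : q < t := by
    rw [hq, ht]
    exact Real.rpow_lt_rpow_of_exponent_lt hR1 (by linarith)
  have hN01 : 1 ≤ N0 := by rw [hN0]; exact Real.one_le_rpow hR1.le (by linarith)
  have hqN : 1 ≤ q * N0 := by
    rw [hq, hN0, ← Real.rpow_add hR0]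
    exact Real.one_le_rpow hR1.le (by linarith)
  have hRq : R * q ^ 3 = t := by
    have h1 : q ^ 3 = R ^ (3 * (-(1 / 2) + η)) := by
      rw [hq, ← Real.rpow_natCast, ← Real.rpow_mul hR0.le]
      congr 1
      push_cast
      ring
    rw [h1, ht]
    conv_lhs => rw [← Real.rpow_one R, ← Real.rpow_mul hR0.le, ← Real.rpow_add hR0]
    congr 1
    ring
  -- the values
  have hA1n : ∀ v, ‖A1 v‖ ≤ m1 := by
    intro v
    have := hA1b 0 (Nat.zero_le _) v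
    rwa [norm_iteratedFDeriv_zero, pow_zero, mul_one] at this
  have hA2n : ∀ v, ‖A2 v‖ ≤ m2 := by
    intro v
    have := hA2b 0 (Nat.zero_le _) v
    rwa [norm_iteratedFDeriv_zero, pow_zero, mul_one] at this
  have hf1n : ∀ v, ‖f1 v‖ = ‖A1 v‖ := by
    intro v
    rw [hA1f, norm_mul, Complex.norm_exp_ofReal_mul_I, one_mul]
  have hf2n : ∀ v, ‖f2 v‖ = ‖A2 v‖ := by
    intro v
    rw [hA2f, norm_mul, Complex.norm_exp_ofReal_mul_I, one_mul]
  have hf1s : ∀ v, f1 v ≠ 0 → ‖v‖ ≤ q := by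
    intro v hv
    refine hA1s v fun h => hv ?_
    rw [← norm_eq_zero, hf1n, h, norm_zero]
  have hf2s : ∀ v, f2 v ≠ 0 → ‖v‖ ≤ q := by
    intro v hv
    refine hA2s v fun h => hv ?_
    rw [← norm_eq_zero, hf2n, h, norm_zero]
  have hcov := VOV_cov hVCD hVCM f1 f2 g1 g2
  obtain ⟨J, hJ⟩ : ∃ J : ℂ, J = ∫ z : ℍ, f1 (cd (g1⁻¹ • z)) * conj (f2 (cd (g2⁻¹ • z))) := ⟨_, rfl⟩
  have hsup : J ≠ 0 → dist (g1 • I : ℍ) (g2 • I) ≤ 4 * q ∧ dist ((g1⁻¹ * g2) • I : ℍ) I ≤ 4 * q ∧ ‖cd ((g1⁻¹ * g2) • I)‖ ≤ 4 * q := by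
    intro hne
    obtain ⟨z, hz⟩ : ∃ z : ℍ, f1 (cd (g1⁻¹ • z)) * conj (f2 (cd (g2⁻¹ • z))) ≠ 0 := by
      by_contra h
      push Not at h
      apply hne
      rw [hJ]
      simp only [h, integral_zero]
    refine VOV_sup hVCD hq8 g1 g2 z (hf1s _ (left_ne_zero_of_mul hz)) (hf2s _ fun h => ?_)
    rw [h, map_zero, mul_zero] at hz
    exact hz rfl
  rw [← hJ] at hcov ⊢
  refine ⟨?_, ?_, ?_⟩
  · rw [hcov]
    refine (VOV_bd hq0 hq8 hm1 hm2 f1 _ (fun v => (hf1n v).le.trans (hA1n v)) (fun v => ?_) hf1s).trans ?_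
    · rw [Complex.norm_conj, hf2n]
      exact hA2n _
    · have h1 : q ^ 2 = R ^ (-1 + 2 * η) := by
        rw [hq, ← Real.rpow_natCast, ← Real.rpow_mul hR0.le]
        congr 1
        push_cast
        ring
      have h2 : R ^ (-1 + 3 * η) = R ^ (-1 + 2 * η) * R ^ η := by
        rw [← Real.rpow_add hR0]
        congr 1
        ring
      rw [h2, ← h1]
      have h3 : 0 ≤ m1 * m2 * q ^ 2 := by positivity
      nlinarith
  · intro hne
    have := (hsup hne).1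
    linarith
  · intro hnot
    by_cases hne : J = 0
    · rw [hne, norm_zero]
      have : 0 ≤ R ^ (-M) := Real.rpow_nonneg hR0.le _
      positivity
    obtain ⟨s1, s2, s3⟩ := hsup hne
    obtain ⟨α, hα1, hα2⟩ := hCT (g1⁻¹ * g2) (by linarith)
    obtain ⟨w, hw⟩ : ∃ w : ℂ, w = cd ((g1⁻¹ * g2) • I) := ⟨_, rfl⟩
    rw [← hw] at s3 hα1 hα2
    obtain ⟨e, he⟩ : ∃ e : ℂ, e = Complex.exp (-((α : ℂ) * Complex.I)) := ⟨_, rfl⟩
    rw [← he] at hα1
    have hen : ‖e‖ = 1 := by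
      have h1 : -((α : ℂ) * Complex.I) = ((-α : ℝ) : ℂ) * Complex.I := by
        push_cast
        ring
      rw [he, h1, Complex.norm_exp_ofReal_mul_I]
    have hec : Complex.exp ((α : ℂ) * Complex.I) = conj e := by
      rw [he, ← Complex.exp_conj, map_neg, map_mul, Complex.conj_ofReal, Complex.conj_I, mul_neg, neg_neg]
    rw [hec] at hα2
    obtain ⟨ξ, hξ⟩ : ∃ ξ : ℂ, ξ = (ρ1 : ℂ) - (ρ2 : ℂ) * conj e := ⟨_, rfl⟩
    have hw1 : ‖w‖ ≤ 1 := by linarith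
    rcases lt_or_ge ‖ξ‖ t with hcase | hcase
    · exfalso
      apply hnot
      have hce : ‖conj e‖ = 1 := by rw [Complex.norm_conj, hen]
      have r1 : |ρ1 - ρ2| ≤ ‖ξ‖ := by
        have h1 := abs_norm_sub_norm_le (ρ1 : ℂ) ((ρ2 : ℂ) * conj e)
        rw [norm_mul, hce, mul_one, Complex.norm_real, Complex.norm_real, Real.norm_eq_abs, Real.norm_eq_abs,
          abs_of_nonneg (by linarith [hρ1.1] : 0 ≤ ρ1), abs_of_nonneg (by linarith [hρ2.1] : 0 ≤ ρ2), ← hξ] at h1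
        exact h1
      have r2 : ‖conj e - 1‖ < 4 * t := by
        have h1 : (ρ2 : ℂ) * (conj e - 1) = ((ρ1 - ρ2 : ℝ) : ℂ) - ξ := by
          rw [hξ]
          push_cast
          ring
        have h2 : ρ2 * ‖conj e - 1‖ = ‖((ρ1 - ρ2 : ℝ) : ℂ) - ξ‖ := by
          rw [← h1, norm_mul, Complex.norm_real, Real.norm_eq_abs, abs_of_nonneg (by linarith [hρ2.1] : 0 ≤ ρ2)]
        have h3 := norm_sub_le ((ρ1 - ρ2 : ℝ) : ℂ) ξ
        rw [Complex.norm_real, Real.norm_eq_abs] at h3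
        have h4 : 1 / 2 * ‖conj e - 1‖ ≤ ρ2 * ‖conj e - 1‖ := mul_le_mul_of_nonneg_right hρ2.1 (norm_nonneg _)
        linarith
      have r3 := hα2 (4 * t) (by positivity) (by linarith) (by linarith) r2
      have r4 : R ^ (-(1 / 2) + 3 * η) * R ^ η = R ^ (-(1 / 2) + 4 * η) := by
        rw [← Real.rpow_add hR0]
        congr 1
        ring
      have r5 : R ^ (-(1 / 2) + 4 * η) ≤ R ^ (-(1 / 2) + 100 * η) := hmono (by linarith)
      rw [← ht] at r4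
      refine ⟨VOV_Bo r3 ?_, ?_⟩
      · have : CT * (4 * t) ≤ t * R ^ η := by nlinarith
        linarith
      · have : t ≤ t * R ^ η := by nlinarith
        linarith
    · have hξ0 : ξ ≠ 0 := by
        intro h
        rw [h, norm_zero] at hcase
        linarith
      have ha0 : 0 ≤ R * ρ2 := by
        have := hρ2.1
        positivity
      obtain ⟨hB1, hB2⟩ := hsym q N0 (R * ρ2) m1 m2 A1 A2 e w hq0 hq8 hN01 hqN ha0 (by
        have h1 : C1 * (R * ρ2) * q ^ 3 = C1 * ρ2 * (R * q ^ 3) := by ring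
        rw [h1, hRq]
        have h2 : C1 * ρ2 ≤ Q := by nlinarith [hρ2.2]
        nlinarith) hm1 hm2 hen s3 hA1 hA1s hA1b hA2 hA2b
      have hns := hVNS K R q (C1 * m1 * m2) (C1 * N0) ξ (VOV_B A1 A2 e w (R * ρ2)) hR0 hq0 (by positivity) (by positivity) hξ0 hB1
        (fun v hv => hA1s v fun h => hv (by unfold VOV_B; rw [h, zero_mul])) hB2
      have hJ2 : J = Complex.exp (((R * ρ2 * (e * w).re : ℝ) : ℂ) * Complex.I) *
          ∫ v : ℂ, VOV_B A1 A2 e w (R * ρ2) v * Complex.exp (((R * (ξ.re * v.re + ξ.im * v.im) : ℝ) : ℂ) * Complex.I) := by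
        have e1 : ∫ v in Metric.ball (0 : ℂ) 2, Complex.exp (((R * ρ2 * (e * w).re : ℝ) : ℂ) * Complex.I) *
            (VOV_B A1 A2 e w (R * ρ2) v * Complex.exp (((R * (ξ.re * v.re + ξ.im * v.im) : ℝ) : ℂ) * Complex.I)) =
            ∫ v : ℂ, Complex.exp (((R * ρ2 * (e * w).re : ℝ) : ℂ) * Complex.I) *
            (VOV_B A1 A2 e w (R * ρ2) v * Complex.exp (((R * (ξ.re * v.re + ξ.im * v.im) : ℝ) : ℂ) * Complex.I)) := by
          refine setIntegral_eq_integral_of_forall_compl_eq_zero fun v hv => ?_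
          have h1 : A1 v = 0 := by
            by_contra h
            apply hv
            rw [mem_ball_zero_iff]
            linarith [hA1s v h]
          unfold VOV_B
          rw [h1, zero_mul, zero_mul, mul_zero]
        rw [hcov, ← integral_const_mul, ← e1]
        refine setIntegral_congr_fun Metric.isOpen_ball.measurableSet fun v hv => ?_
        rw [mem_ball_zero_iff] at hv
        exact VOV_ph hA1f hA2f hξ hw1 hv (hα1 v hv)
      rw [hJ2, norm_mul, Complex.norm_exp_ofReal_mul_I, one_mul]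
      refine hns.trans ?_
      -- numbers
      have hξp : 0 < ‖ξ‖ := norm_pos_iff.2 hξ0
      have n1 : C1 * N0 / (R * ‖ξ‖) ≤ R ^ (-η) := by
        rw [div_le_iff₀ (by positivity)]
        have h1 : R ^ (-η) * (R * t) = N0 * R ^ η := by
          rw [ht, hN0]
          have h2 : R * R ^ (-(1 / 2) + 3 * η) = R ^ (1 / 2 + 3 * η) := by
            conv_lhs => rw [← Real.rpow_one R, ← Real.rpow_mul hR0.le, ← Real.rpow_add hR0]
            congr 1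
            ring
          rw [h2, ← Real.rpow_add hR0, ← Real.rpow_add hR0]
          congr 1
          ring
        have h3 : R ^ (-η) * (R * t) ≤ R ^ (-η) * (R * ‖ξ‖) :=
          mul_le_mul_of_nonneg_left (mul_le_mul_of_nonneg_left hcase hR0.le) (Real.rpow_nonneg hR0.le _)
        have h4 : C1 * N0 ≤ N0 * R ^ η := by nlinarith
        linarith
      have n2 : (C1 * N0 / (R * ‖ξ‖)) ^ K ≤ R ^ (-M) := by
        calc (C1 * N0 / (R * ‖ξ‖)) ^ K ≤ (R ^ (-η)) ^ K := pow_le_pow_left₀ (by positivity) n1 K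
          _ = R ^ (-η * K) := by rw [← Real.rpow_natCast, ← Real.rpow_mul hR0.le]
          _ ≤ R ^ (-M) := hmono (by linarith)
      have n3 : 4 * q ^ 2 * C1 ≤ 1 := by
        have h1 : q ^ 2 ≤ q := by nlinarith
        have h2 : 4 * C1 ≤ Q := by linarith
        nlinarith
      have n4 : 0 ≤ R ^ (-M) := Real.rpow_nonneg hR0.le _
      calc 4 * q ^ 2 * (C1 * m1 * m2) * (C1 * N0 / (R * ‖ξ‖)) ^ K ≤ 4 * q ^ 2 * (C1 * m1 * m2) * R ^ (-M) :=
            mul_le_mul_of_nonneg_left n2 (by positivity)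
        _ = (4 * q ^ 2 * C1) * (m1 * m2 * R ^ (-M)) := by ring
        _ ≤ 1 * (m1 * m2 * R ^ (-M)) := mul_le_mul_of_nonneg_right n3 (by positivity)
        _ = m1 * m2 * R ^ (-M) := one_mul _

end Pool.Agent.VQ
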